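import Pool.Agent.K1H10.TN.Cnt
import Pool.Agent.K1H10.TN.An

/-!
# Almost all intervals of length `exp (c √(log n log log n))`, `c < 1 / √2`, contain no square product

Let `t n` be the least `t` such that the block `{n, n + 1, …, n + t}` contains a set of at least two elements whose
product is a perfect square. For every `c < 1 / √2` there is `δ > 0` such that for all large `N` at most
`N exp (- δ √(log N log log N))` of the integers `n ≤ N` satisfy `t n ≤ exp (c √(log N log log N))`.

The proof: a prime `p > T` divides at most one element of `{n, …, n + T}`; hence an element of a square product is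
`b m ^ 2` with a squarefree `b` all of whose prime factors are at most `T`. Such a number has a large square factor or
many prime factors; the numbers with many prime factors are counted by a moment of the number of the divisors.
-/

set_option autoImplicit false

namespace Pool.Agent.Results.MP_14ee70_nt.AlmostAllIntervals

open Finset

/-- The least `t ≥ 0` such that the block `{n, n + 1, …, n + t}` contains a subset `S` with at least two elements
whose product is a perfect square. -/
noncomputable def t (n : ℕ) : ℕ :=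
  sInf {t : ℕ | ∃ S : Finset ℕ, S ⊆ Icc n (n + t) ∧ 2 ≤ S.card ∧ IsSquare (∏ a ∈ S, a)}

theorem t_mem (n : ℕ) (hn : 1 ≤ n) :
    ∃ S : Finset ℕ, S ⊆ Icc n (n + t n) ∧ 2 ≤ S.card ∧ IsSquare (∏ a ∈ S, a) := by
  have h : {t : ℕ | ∃ S : Finset ℕ, S ⊆ Icc n (n + t) ∧ 2 ≤ S.card ∧
      IsSquare (∏ a ∈ S, a)}.Nonempty := by
    have hne : n ≠ 4 * n := by omega
    refine ⟨3 * n, {n, 4 * n}, ?_, ?_, 2 * n, ?_⟩
    · intro x hx
      rw [mem_insert, mem_singleton] at hx
      rw [mem_Icc]
      omega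
    · rw [card_pair hne]
    · rw [prod_pair hne]
      ring
  exact Nat.sInf_mem h

/-- For every `c < 1 / √2` there is `δ > 0` such that for all large `N` at most `N exp (- δ √(log N log log N))`
integers `n ≤ N` have `t n ≤ exp (c √(log N log log N))`. -/
theorem result (c : ℝ) (hc : c < 1 / √2) :
    ∃ δ : ℝ, 0 < δ ∧ ∃ N₀ : ℕ, ∀ N : ℕ, N₀ ≤ N →
      (({n : ℕ | 1 ≤ n ∧ n ≤ N ∧
        (t n : ℝ) ≤ Real.exp (c * √(Real.log N * Real.log (Real.log N)))}.ncard : ℕ) : ℝ) ≤
        N * Real.exp (-(δ * √(Real.log N * Real.log (Real.log N)))) := by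
  classical
  set c' := max c (1 / 2) with hc'
  have hs2 : (0 : ℝ) < √2 := by positivity
  have hsq : √2 * √2 = 2 := Real.mul_self_sqrt (by norm_num)
  have h12 : (1 : ℝ) / 2 < 1 / √2 := by
    rw [div_lt_div_iff₀ (by norm_num) hs2]
    nlinarith
  have hc1 : c' < 1 / √2 := max_lt hc h12
  have hc2 : 1 / 2 ≤ c' := le_max_right _ _
  have hcpos : 0 < c' := by linarith
  have hcsq : c' ^ 2 < 1 / 2 := by
    have h1 : c' ^ 2 < (1 / √2) ^ 2 := pow_lt_pow_left₀ hc1 hcpos.le (by norm_num)
    have h2 : (1 / √2) ^ 2 = 1 / 2 := by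
      rw [div_pow, Real.sq_sqrt (by norm_num)]; norm_num
    rwa [h2] at h1
  set d := 1 / 2 - c' ^ 2 with hd
  have hd0 : 0 < d := by rw [hd]; linarith
  have hd1 : d ≤ 1 / 4 := by rw [hd]; nlinarith
  have hkey : c' ^ 2 < (1 - d / 4) * (1 / 2 - d / 4) := by
    have : c' ^ 2 = 1 / 2 - d := by rw [hd]; ring
    rw [this]
    nlinarith
  set A := (1 - d / 4) / c' with hA
  have hA0 : 0 < A := by
    rw [hA]
    apply div_pos _ hcpos
    linarith
  have hcA : c' * A = 1 - d / 4 := by rw [hA]; field_simp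
  set κ := A * (1 / 2 - d / 4) - c' with hκ
  have hκ0 : 0 < κ := by
    have h1 : c' * κ = (1 - d / 4) * (1 / 2 - d / 4) - c' ^ 2 := by
      rw [hκ, mul_sub, ← mul_assoc, hcA]; ring
    have h2 : 0 < c' * κ := by rw [h1]; linarith
    exact (pos_iff_pos_of_mul_pos h2).1 hcpos
  obtain ⟨l0, hl0⟩ := Pool.Agent.K1H10.TN.analysis2 c' A (1 / 2 - d / 4) κ (d / 16) hcpos hA0
    (by linarith) (by linarith) hκ0 (by linarith) (by linarith) (by rw [hcA]; ring)
    (by rw [hκ]; ring)
  have htend : Filter.Tendsto (fun N : ℕ => Real.log (Real.log N)) Filter.atTop Filter.atTop :=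
    Real.tendsto_log_atTop.comp (Real.tendsto_log_atTop.comp tendsto_natCast_atTop_atTop)
  obtain ⟨N₀, hN₀⟩ := Filter.eventually_atTop.1 (htend.eventually_ge_atTop l0)
  refine ⟨κ / 4, by linarith, N₀, fun N hN => ?_⟩
  set y := √(Real.log N * Real.log (Real.log N)) with hy
  have hy0 : 0 ≤ y := Real.sqrt_nonneg _
  refine hl0 N (hN₀ N hN) _ ?_
  intro T k M m hT hM hm hTe
  refine le_trans ?_ (Pool.Agent.K1H10.TN.count N T k M m hT hM hm)
  have hsub : {n : ℕ | 1 ≤ n ∧ n ≤ N ∧ (t n : ℝ) ≤ Real.exp (c * y)} ⊆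
      (((Icc 1 N).filter (Pool.Agent.K1H10.TN.Sqp T) : Finset ℕ) : Set ℕ) := by
    rintro n ⟨h1, h2, h3⟩
    rw [mem_coe, mem_filter, mem_Icc]
    refine ⟨⟨h1, h2⟩, ?_⟩
    have h4 : t n ≤ T := by
      rw [hTe]
      apply Nat.le_floor
      refine h3.trans (Real.exp_le_exp.2 ?_)
      exact mul_le_mul_of_nonneg_right (le_max_left _ _) hy0
    obtain ⟨S, hS1, hS2, hS3⟩ := t_mem n h1
    exact ⟨S, hS1.trans (Icc_subset_Icc le_rfl (by omega)), hS2, hS3⟩
  have hcard := Set.ncard_le_ncard hsub (Finset.finite_toSet _)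
  rw [Set.ncard_coe_finset] at hcard
  exact_mod_cast hcard

end Pool.Agent.Results.MP_14ee70_nt.AlmostAllIntervals
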